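import Pool.Agent.helper34.TQ6.Suff1

set_option autoImplicit false

/-!
# Labels and a row function: a sufficient condition for six colours

`L` is a partial proper colouring (labels), `ρ` a monotone row function.  If for every unlabelled
vertex the number of unlabelled out-neighbours plus the number of colours on labelled neighbours
is at most five, then the graph is six-colourable: colour the unlabelled vertices greedily in the
acyclic order of the orientation.
-/

namespace Pool.Agent.helper94.TQ6

open Pool.Agent.helper78.TQ6 (Ew WG)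
open Pool.Agent.helper34.TQ6 (Out exists_beta)

/-- greedy colouring along `β` with forbidden colours -/
theorem greedyC {V : Type} [Finite V] (β : V → ℚ) (O : V → V → Prop) (C : V → Finset (Fin 6))
    (hO : ∀ v, ∃ F : Finset V, F.card + (C v).card ≤ 5 ∧ ∀ u, O v u → β u < β v → u ∈ F) :
    ∃ c : V → Fin 6, (∀ v, c v ∉ C v) ∧ ∀ v u, O v u → β u < β v → c v ≠ c u := by
  classical
  have : IsTrans V (fun u v : V => β u < β v) := ⟨fun _ _ _ h1 h2 => lt_trans h1 h2⟩
  have : Std.Irrefl (fun u v : V => β u < β v) := ⟨fun _ h => lt_irrefl _ h⟩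
  have hwf : WellFounded (fun u v : V => β u < β v) :=
    Finite.wellFounded_of_trans_of_irrefl _
  have hstep : ∀ v (g : ∀ u, β u < β v → Fin 6), ∃ x : Fin 6, x ∉ C v ∧
      ∀ u (h : β u < β v), O v u → x ≠ g u h := by
    intro v g
    obtain ⟨F, hF, hF2⟩ := hO v
    have h1 : (C v ∪ F.image (fun u => if h : β u < β v then g u h else 0)).card < 6 := by
      refine lt_of_le_of_lt (Finset.card_union_le _ _) ?_
      have := Finset.card_image_le (s := F) (f := fun u => if h : β u < β v then g u h else 0)
      omega
    obtain ⟨x, hx⟩ : ∃ x, x ∉ C v ∪ F.image (fun u => if h : β u < β v then g u h else 0) := by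
      by_contra h
      push Not at h
      have h3 : (Finset.univ : Finset (Fin 6)) ⊆
          C v ∪ F.image (fun u => if h : β u < β v then g u h else 0) := fun x _ => h x
      have h4 := Finset.card_le_card h3
      rw [Finset.card_univ, Fintype.card_fin] at h4
      omega
    rw [Finset.mem_union, not_or] at hx
    refine ⟨x, hx.1, fun u h ho he => hx.2 ?_⟩
    rw [Finset.mem_image]
    exact ⟨u, hF2 u ho h, by rw [dif_pos h, he]⟩
  choose G hG using hstep
  refine ⟨hwf.fix G, fun v => ?_, fun v u ho hlt => ?_⟩
  · rw [hwf.fix_eq]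
    exact (hG v _).1
  · rw [hwf.fix_eq]
    exact (hG v _).2 u hlt ho

/-- sufficient condition for six colours: labels `L` and a row function `ρ` -/
theorem suffL {n : ℕ} {p : ℕ → ℕ} (hp : Monotone p) (hlow : ∀ x, x + 1 ≤ p x)
    (L : ℕ → Option (Fin 6)) (ρ : ℕ → ℕ) (hρ : Monotone ρ)
    (hL : ∀ u w c, w < n → Ew p u w → L u = some c → L w ≠ some c)
    (hc : ∀ v, v < n → L v = none → ∃ (F : Finset ℕ) (C : Finset (Fin 6)), F.card + C.card ≤ 5 ∧
      (∀ u, u < n → Out p ρ v u → L u = none → u ∈ F) ∧
      (∀ u c, u < n → (Ew p u v ∨ Ew p v u) → L u = some c → c ∈ C)) :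
    (WG n p).Colorable 6 := by
  classical
  obtain ⟨β, hβ⟩ := exists_beta (n := n) hp hlow ρ hρ
  have hch : ∀ v : Fin n, ∃ (F : Finset ℕ) (C : Finset (Fin 6)), F.card + C.card ≤ 5 ∧
      (∀ u, u < n → L v = none → Out p ρ v u → L u = none → u ∈ F) ∧
      (∀ u c, u < n → L v = none → (Ew p u v ∨ Ew p v u) → L u = some c → c ∈ C) := by
    intro v
    by_cases hv : L v = none
    · obtain ⟨F, C, h1, h2, h3⟩ := hc v v.isLt hv
      exact ⟨F, C, h1, fun u hu _ => h2 u hu, fun u c hu _ => h3 u c hu⟩
    · exact ⟨∅, ∅, by simp, fun u _ h => absurd h hv, fun u c _ h => absurd h hv⟩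
  choose F C hFC hF hC using hch
  obtain ⟨c, hc1, hc2⟩ := greedyC (V := Fin n) (fun v => β v)
    (fun v u => (Ew p v u ∨ Ew p u v) ∧ L v = none ∧ L u = none) C (by
      intro v
      refine ⟨Finset.univ.filter (fun u : Fin n => u.val ∈ F v), ?_, ?_⟩
      · refine le_trans (Nat.add_le_add_right ?_ _) (hFC v)
        rw [← Finset.card_map Fin.valEmbedding]
        refine Finset.card_le_card ?_
        intro t ht
        rw [Finset.mem_map] at ht
        obtain ⟨u, hu, rfl⟩ := ht
        exact (Finset.mem_filter.1 hu).2
      · rintro u ⟨h3, h4, h5⟩ h6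
        refine Finset.mem_filter.2 ⟨Finset.mem_univ _, hF v u u.isLt h4 ?_ h5⟩
        exact (hβ v u v.isLt u.isLt h3).2 h6)
  refine ⟨SimpleGraph.Coloring.mk (fun v : Fin n => (L v).getD (c v)) ?_⟩
  have key : ∀ u w : Fin n, Ew p u w → (L u).getD (c u) ≠ (L w).getD (c w) := by
    intro u w hE
    rcases hu : L u with _ | a
    · rcases hw : L w with _ | b
      · rw [Option.getD_none, Option.getD_none]
        rcases lt_or_gt_of_ne (hβ u w u.isLt w.isLt (Or.inl hE)).1 with h | h
        · exact (hc2 w u ⟨Or.inr hE, hw, hu⟩ h).symm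
        · exact hc2 u w ⟨Or.inl hE, hu, hw⟩ h
      · rw [Option.getD_none, Option.getD_some]
        intro h
        refine hc1 u ?_
        rw [h]
        exact hC u w b w.isLt hu (Or.inr hE) hw
    · rcases hw : L w with _ | b
      · rw [Option.getD_none, Option.getD_some]
        intro h
        refine hc1 w ?_
        rw [← h]
        exact hC w u a u.isLt hw (Or.inl hE) hu
      · rw [Option.getD_some, Option.getD_some]
        rintro rfl
        exact hL u w a w.isLt hE hu hw
  intro u w hadj
  rcases hadj with h | h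
  · exact key u w h
  · exact (key w u h).symm

/-- one label colour ('red'): a vertex that is not red has at most five non-red out-neighbours,
and at most four if it has a red neighbour -/
theorem suffR {n : ℕ} {p : ℕ → ℕ} (hp : Monotone p) (hlow : ∀ x, x + 1 ≤ p x)
    (R : ℕ → Bool) (ρ : ℕ → ℕ) (hρ : Monotone ρ)
    (hR : ∀ u w, w < n → Ew p u w → R u = true → R w = false)
    (hc : ∀ v, v < n → R v = false → ∃ F : Finset ℕ, F.card ≤ 5 ∧
      (∀ u, u < n → Out p ρ v u → R u = false → u ∈ F) ∧
      (∀ u, u < n → (Ew p u v ∨ Ew p v u) → R u = true → F.card ≤ 4)) :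
    (WG n p).Colorable 6 := by
  classical
  refine suffL hp hlow (fun v => if R v then some 0 else none) ρ hρ ?_ ?_
  · intro u w c hw hE h1 h2
    by_cases hu : R u = true
    · have := hR u w hw hE hu
      simp [this] at h2
    · simp [hu] at h1
  · intro v hv hv2
    have hv3 : R v = false := by
      by_contra h
      have h' : R v = true := by simpa using h
      simp [h'] at hv2
    obtain ⟨F, h1, h2, h3⟩ := hc v hv hv3
    by_cases h : ∃ u, u < n ∧ (Ew p u v ∨ Ew p v u) ∧ R u = true
    · obtain ⟨u, hu1, hu2, hu3⟩ := h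
      have h4 := h3 u hu1 hu2 hu3
      refine ⟨F, {0}, by rw [Finset.card_singleton]; omega, fun w hw ho hl => h2 w hw ho ?_, fun w c hw hE hl => ?_⟩
      · by_contra h'
        have h'' : R w = true := by simpa using h'
        simp [h''] at hl
      · by_cases h' : R w = true
        · simp [h'] at hl
          simp [hl]
        · simp [h'] at hl
    · push Not at h
      refine ⟨F, ∅, by simpa using h1, fun w hw ho hl => h2 w hw ho ?_, fun w c hw hE hl => ?_⟩
      · by_contra h'
        have h'' : R w = true := by simpa using h'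
        simp [h''] at hl
      · have h' := h w hw hE
        simp at h'
        simp [h'] at hl

end Pool.Agent.helper94.TQ6
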